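import Pool.Agent.Q83.Psi.Sum2

/-!
The band-limited functions `ψ_b` are frame wavelets for all `1/8 < b ≤ 1/6`.
-/

set_option autoImplicit false
open MeasureTheory Filter Topology Set
open scoped ENNReal NNReal Real FourierTransform
open Pool.Agent.Helper704 Pool.Agent.Helper704.RW

namespace Pool.Agent.Results.MP_3fc48d_an.AllFrames

/-- The wavelet `ψ_{j,k}(x) = 2^{j/2} ψ(2^j x - k)`. -/
noncomputable def wav (ψ : ℝ → ℂ) (j k : ℤ) (x : ℝ) : ℂ :=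
  (((2 : ℝ) ^ ((j : ℝ) / 2) : ℝ) : ℂ) * ψ (2 ^ j * x - k)

/-- `ψ` is a frame wavelet: the system `ψ_{j,k}` is a frame for `L²(ℝ)`. -/
def IsFrameWavelet (ψ : ℝ → ℂ) : Prop :=
  ∃ A B : ℝ, 0 < A ∧ A ≤ B ∧ ∀ f : ℝ → ℂ, MemLp f 2 volume →
    Summable (fun q : ℤ × ℤ => ‖∫ x, f x * (starRingEnd ℂ) (wav ψ q.1 q.2 x)‖ ^ 2) ∧
    A * ∫ x, ‖f x‖ ^ 2 ≤ ∑' q : ℤ × ℤ, ‖∫ x, f x * (starRingEnd ℂ) (wav ψ q.1 q.2 x)‖ ^ 2 ∧
    ∑' q : ℤ × ℤ, ‖∫ x, f x * (starRingEnd ℂ) (wav ψ q.1 q.2 x)‖ ^ 2 ≤ B * ∫ x, ‖f x‖ ^ 2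

/-- `ψ` is the function `ψ_b`: an element of `L²(ℝ)` whose Fourier transform is the indicator
function of `(-1,-b) ∪ (b,1)`. -/
def IsPsi (b : ℝ) (ψ : Lp ℂ 2 (volume : Measure ℝ)) : Prop :=
  ((𝓕 ψ : Lp ℂ 2 (volume : Measure ℝ)) : ℝ → ℂ) =ᵐ[volume]
    (Ioo (-1) (-b) ∪ Ioo b 1).indicator fun _ => 1

lemma Om_eq (b : ℝ) (hb : 0 < b) : Q83.Psi.Om b = Ioo (-1) (-b) ∪ Ioo b 1 := by
  ext x
  simp only [Q83.Psi.Om, mem_ofPred_eq, mem_union, mem_Ioo]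
  constructor
  · rintro ⟨h1, h2⟩
    rw [abs_lt] at h2
    rcases lt_abs.1 h1 with h | h
    · exact Or.inr ⟨h, h2.2⟩
    · exact Or.inl ⟨h2.1, by linarith⟩
  · rintro (⟨h1, h2⟩ | ⟨h1, h2⟩)
    · rw [abs_of_neg (by linarith)]
      exact ⟨by linarith, by linarith⟩
    · rw [abs_of_pos (by linarith)]
      exact ⟨h1, h2⟩

lemma isPsi_iff (b : ℝ) (hb : 0 < b) (ψ : HH) : IsPsi b ψ ↔ 𝓕 ψ = Q83.Psi.phi b hb := by
  unfold IsPsi Q83.Psi.phi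
  rw [← Om_eq b hb]
  constructor
  · intro h
    apply Lp.ext
    exact h.trans (MemLp.coeFn_toLp _).symm
  · intro h
    rw [h]
    exact MemLp.coeFn_toLp _

/-- The wavelets as elements of the Hilbert space. -/
lemma wav_eq (ψ : HH) (j k : ℤ) : ((Ds (j, k) ψ : HH) : ℝ → ℂ) =ᵐ[volume] wav ψ j k := by
  unfold Ds
  filter_upwards [coeFn_wco (dy j) (k : ℝ) (wT (dy j)) (wt_wT _) ψ] with x hx
  rw [hx]
  unfold wav wT
  rw [adet_dy, dy_apply]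
  congr 2
  rw [Real.sqrt_eq_rpow, ← Real.rpow_intCast, ← Real.rpow_mul (by norm_num)]
  congr 1
  ring

lemma coeff (ψ : HH) (f : ℝ → ℂ) (hf : MemLp f 2 volume) (j k : ℤ) :
    ∫ x, f x * (starRingEnd ℂ) (wav ψ j k x) = inner ℂ (Dh (j, k) (𝓕 ψ)) (𝓕 (hf.toLp f)) := by
  rw [← fourier_Ds, Lp.inner_fourier_eq, L2.inner_def]
  apply integral_congr_ae
  filter_upwards [wav_eq ψ j k, hf.coeFn_toLp] with x h1 h2
  rw [h1, h2]
  simp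

theorem main (b : ℝ) (hb : 1 / 8 < b) (hb2 : b ≤ 1 / 6) (ψ : HH) (hψ : IsPsi b ψ) :
    IsFrameWavelet ψ := by
  have hb0 : 0 < b := by linarith
  rw [isPsi_iff b hb0] at hψ
  have hs2 : √2 ^ 2 = 2 := Real.sq_sqrt (by norm_num)
  have hs1 : 1 < √2 := by
    rw [Real.lt_sqrt (by norm_num)]
    norm_num
  have hs3 : √2 < 2 := by
    rw [Real.sqrt_lt' (by norm_num)]
    norm_num
  refine ⟨((√2 - 1) ^ 2) ^ 2, (1 + √2) ^ 2, by have : 0 < √2 - 1 := by linarith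
                                               positivity, ?_, ?_⟩
  · have h1 : (√2 - 1) ^ 2 ≤ 1 + √2 := by nlinarith
    exact pow_le_pow_left₀ (by positivity) h1 2
  intro f hf
  set U : HH := 𝓕 (hf.toLp f) with hU
  have hUm : Measurable (U : ℝ → ℂ) := (Lp.stronglyMeasurable U).measurable
  have hU2 : MemLp (U : ℝ → ℂ) 2 volume := Lp.memLp U
  have hTU := Q83.Psi.memLp_TT hb U hUm hU2
  have hs : MemLp ((U : ℝ → ℂ) + Q83.Psi.TT b U) 2 volume := hU2.add hTU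
  have htot := Q83.Psi.total b hb0 (by linarith) U
  have hfin : ∫⁻ x, ‖((U : ℝ → ℂ) + Q83.Psi.TT b U) x‖ₑ ^ 2 ≠ ⊤ := by
    rw [← eLpNorm_two_sq]
    exact (ENNReal.pow_lt_top hs.2).ne
  have hc : ∀ q : ℤ × ℤ, ‖∫ x, f x * (starRingEnd ℂ) (wav ψ q.1 q.2 x)‖ ^ 2 =
      ‖inner ℂ (Dh q (Q83.Psi.phi b hb0)) U‖ ^ 2 := by
    rintro ⟨j, k⟩
    rw [coeff ψ f hf j k, hψ]
  simp_rw [hc]
  have hsum : HasSum (fun q : ℤ × ℤ => ‖inner ℂ (Dh q (Q83.Psi.phi b hb0)) U‖ ^ 2)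
      (∫⁻ x, ‖((U : ℝ → ℂ) + Q83.Psi.TT b U) x‖ₑ ^ 2).toReal := by
    rw [← htot] at hfin ⊢
    have := ENNReal.hasSum_toReal hfin
    have h1 : ∀ q : ℤ × ℤ, (ENNReal.ofReal (‖inner ℂ (Dh q (Q83.Psi.phi b hb0)) U‖ ^ 2)).toReal =
        ‖inner ℂ (Dh q (Q83.Psi.phi b hb0)) U‖ ^ 2 := fun q =>
      ENNReal.toReal_ofReal (by positivity)
    simp_rw [h1] at this
    rwa [ENNReal.tsum_toReal_eq (fun q => ENNReal.ofReal_ne_top), tsum_congr h1]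
  refine ⟨hsum.summable, ?_⟩
  rw [hsum.tsum_eq, ← Q83.Psi.toReal_sq]
  have hn : ∫ x, ‖f x‖ ^ 2 = (eLpNorm (U : ℝ → ℂ) 2 volume).toReal ^ 2 := by
    have h1 : ‖U‖ = ‖hf.toLp f‖ := Lp.norm_fourier_eq _
    have h3 : AEStronglyMeasurable (fun x => ‖f x‖ ^ 2) volume := hf.1.norm.pow 2
    have h4 : ∀ᵐ x : ℝ, (0 : ℝ) ≤ ‖f x‖ ^ 2 := Eventually.of_forall fun x => by positivity
    rw [← Lp.norm_def, h1, Lp.norm_toLp, Q83.Psi.toReal_sq,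
      integral_eq_lintegral_of_nonneg_ae h4 h3]
    congr 1
    apply lintegral_congr
    intro x
    rw [ENNReal.ofReal_pow (norm_nonneg _), ofReal_norm]
  rw [hn]
  have h2 := Q83.Psi.two_sided hb hb2 U hUm hU2
  constructor
  · rw [← mul_pow]
    exact pow_le_pow_left₀ (by positivity) h2.1 2
  · rw [← mul_pow]
    exact pow_le_pow_left₀ ENNReal.toReal_nonneg h2.2 2

/-- For every `b` with `1/8 < b ≤ 1/6` there is exactly one `ψ_b`, and it is a frame wavelet. -/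
theorem result (b : ℝ) (hb : 1 / 8 < b) (hb2 : b ≤ 1 / 6) :
    (∃! ψ : Lp ℂ 2 (volume : Measure ℝ), IsPsi b ψ) ∧
      ∀ ψ : Lp ℂ 2 (volume : Measure ℝ), IsPsi b ψ → IsFrameWavelet ψ := by
  have hb0 : 0 < b := by linarith
  refine ⟨⟨(Lp.fourierTransformₗᵢ ℝ ℂ).symm (Q83.Psi.phi b hb0), ?_, ?_⟩,
    fun ψ hψ => main b hb hb2 ψ hψ⟩
  · simp only
    rw [isPsi_iff b hb0]
    exact (Lp.fourierTransformₗᵢ ℝ ℂ).apply_symm_apply _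
  · intro ψ hψ
    rw [isPsi_iff b hb0] at hψ
    rw [← hψ]
    exact ((Lp.fourierTransformₗᵢ ℝ ℂ).symm_apply_apply _).symm

end Pool.Agent.Results.MP_3fc48d_an.AllFrames
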